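import Pool.Agent.Lib.MP_89b5c6_co.Two

/-!
# From families of involutions to colourings of the line graph
-/

set_option autoImplicit false
set_option linter.unusedSectionVars false

namespace Pool.Agent.TwoSided

open Finset Pool.Agent.Vizing

theorem colorable_of_col {V : Type} {n : ℕ} {G : SimpleGraph V} {m : Fin n → V → V}
    (hm : Col G [] m) : G.lineGraph.Colorable n := by
  classical
  have hex : ∀ e : G.edgeSet, ∃ c : Fin n, ∀ u v, (e : Sym2 V) = s(u, v) → m c u = v := by
    rintro ⟨e, he⟩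
    induction e using Sym2.ind with
    | _ a b =>
      rw [SimpleGraph.mem_edgeSet] at he
      obtain ⟨c, hc⟩ := hm.cov a b he (by simp)
      refine ⟨c, ?_⟩
      intro u v huv
      simp only [Sym2.eq_iff] at huv
      rcases huv with ⟨rfl, rfl⟩ | ⟨rfl, rfl⟩
      · exact hc
      · rw [← hc, hm.inv]
  choose f hf using hex
  refine ⟨SimpleGraph.Coloring.mk f ?_⟩
  intro e e' hadj heq
  rw [SimpleGraph.lineGraph_adj_iff_exists] at hadj
  obtain ⟨hne, w, hw, hw'⟩ := hadj
  obtain ⟨a, ha⟩ := Sym2.mem_iff_exists.1 hw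
  obtain ⟨b, hb⟩ := Sym2.mem_iff_exists.1 hw'
  apply hne
  apply Subtype.ext
  rw [ha, hb]
  have h1 := hf e w a ha
  have h2 := hf e' w b hb
  rw [← h1, ← h2, heq]

theorem dg_eq_degree {V : Type} [Fintype V] (G : SimpleGraph V) [DecidableRel G.Adj] (v : V) :
    dg G v = G.degree v := by
  classical
  rw [dg, ← SimpleGraph.card_neighborFinset_eq_degree]
  congr 1
  ext u
  rw [mem_nb, SimpleGraph.mem_neighborFinset]

/-- The main theorem with numbers. -/
theorem colorable_or {V : Type} [Fintype V] (G G' : SimpleGraph V) {Δ Δ' g : ℕ}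
    (hG : ∀ v, dg G v ≤ Δ) (hG' : ∀ v, dg G' v ≤ Δ')
    (sum : ∀ v, dg G v + dg G' v + 1 = Fintype.card V) (hg : Δ + Δ' + 1 = Fintype.card V + g)
    (cmp : ∀ u v, u ≠ v → G.Adj u v ∨ G'.Adj u v)
    (h : Fintype.card V ≤ g + 2 + Δ' ∨ ∀ S : Finset V, S.Nonempty → (∀ v ∈ S, dg G v = Δ) →
      ∃ v ∈ S, (ns G S v).card ≤ g)
    (h' : Fintype.card V ≤ g + 2 + Δ ∨ ∀ S : Finset V, S.Nonempty → (∀ v ∈ S, dg G' v = Δ') →
      ∃ v ∈ S, (ns G' S v).card ≤ g) :
    G.lineGraph.Colorable Δ ∨ G'.lineGraph.Colorable Δ' := by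
  classical
  by_contra hcon
  push Not at hcon
  obtain ⟨H, hH, hc⟩ := ex_crit (C := Fin Δ) G (by
    rintro ⟨m, hm⟩
    exact hcon.1 (colorable_of_col hm)) (fun v => by rw [Fintype.card_fin]; exact hG v)
  obtain ⟨H', hH', hc'⟩ := ex_crit (C := Fin Δ') G' (by
    rintro ⟨m, hm⟩
    exact hcon.2 (colorable_of_col hm)) (fun v => by rw [Fintype.card_fin]; exact hG' v)
  have s : Side (Fin Δ) (Fin Δ') G G' H H' g := ⟨hc, hH, fun v => by
    rw [Fintype.card_fin]; exact hG v, hc', hH', fun v => by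
    rw [Fintype.card_fin]; exact hG' v, sum, by
    rw [Fintype.card_fin, Fintype.card_fin]; exact hg, cmp⟩
  refine s.main ?_ ?_
  · rcases h with h | h
    · exact Or.inl (by rw [Fintype.card_fin]; exact h)
    · right
      obtain ⟨x, hx, hle⟩ := h (full (Fin Δ) H) (by
        obtain ⟨v, hv⟩ := hc.ex_full
        exact ⟨v, hv⟩) (fun v hv => by
        have := full_dg hH s.hG hv
        rwa [Fintype.card_fin] at this)
      refine ⟨x, hx, le_trans (Finset.card_le_card ?_) hle⟩
      intro z hz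
      rw [mem_ns] at hz ⊢
      exact ⟨hz.1, hH hz.2⟩
  · rcases h' with h | h
    · exact Or.inl (by rw [Fintype.card_fin]; exact h)
    · right
      obtain ⟨x, hx, hle⟩ := h (full (Fin Δ') H') (by
        obtain ⟨v, hv⟩ := hc'.ex_full
        exact ⟨v, hv⟩) (fun v hv => by
        have := full_dg hH' s.hG' hv
        rwa [Fintype.card_fin] at this)
      refine ⟨x, hx, le_trans (Finset.card_le_card ?_) hle⟩
      intro z hz
      rw [mem_ns] at hz ⊢
      exact ⟨hz.1, hH' hz.2⟩

/-- The maximum degree is at most the number of colours. -/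
theorem maxDegree_le_of_colorable {V : Type} [Fintype V] (G : SimpleGraph V) [DecidableRel G.Adj]
    {n : ℕ} (h : G.lineGraph.Colorable n) : G.maxDegree ≤ n := by
  classical
  obtain ⟨f⟩ := h
  apply G.maxDegree_le_of_forall_degree_le
  intro v
  rw [← SimpleGraph.card_neighborSet_eq_degree, ← Fintype.card_fin n]
  have hmem : ∀ u : G.neighborSet v, s(v, (u : V)) ∈ G.edgeSet := fun u => by
    rw [SimpleGraph.mem_edgeSet]; exact u.2
  refine Fintype.card_le_of_injective
    (fun u : G.neighborSet v => f ⟨s(v, u), hmem u⟩) ?_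
  intro a b hab
  by_contra hne
  have hadj : G.lineGraph.Adj ⟨s(v, (a : V)), hmem a⟩ ⟨s(v, (b : V)), hmem b⟩ := by
    rw [SimpleGraph.lineGraph_adj_iff_exists]
    refine ⟨?_, v, by simp, by simp⟩
    intro h
    have h' := congrArg Subtype.val h
    simp only at h'
    rw [Sym2.congr_right] at h'
    exact hne (Subtype.ext h')
  exact f.valid hadj hab

theorem sInf_eq_maxDegree {V : Type} [Fintype V] (G : SimpleGraph V) [DecidableRel G.Adj]
    (h : G.lineGraph.Colorable G.maxDegree) :
    sInf {n : ℕ | G.lineGraph.Colorable n} = G.maxDegree := by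
  apply le_antisymm
  · exact Nat.sInf_le h
  · exact maxDegree_le_of_colorable G
      (Nat.sInf_mem (s := {n : ℕ | G.lineGraph.Colorable n}) ⟨_, h⟩)

theorem empty_colorable {V : Type} [IsEmpty V] (G : SimpleGraph V) (n : ℕ) :
    G.lineGraph.Colorable n := by
  have : IsEmpty G.edgeSet := by
    constructor
    rintro ⟨e, he⟩
    induction e using Sym2.ind with
    | _ a b => exact isEmptyElim a
  exact ⟨SimpleGraph.Coloring.mk (fun e => isEmptyElim e) (fun {e} => isEmptyElim e)⟩

end Pool.Agent.TwoSided
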