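import Pool.Agent.Lib.MP_89b5c6_co.Wood

/-!
# A set of small vertices has at least twice as many neighbours
-/

set_option autoImplicit false
set_option linter.unusedSectionVars false

namespace Pool.Agent.TwoSided

open Finset Pool.Agent.Vizing

variable {V C : Type} {H : SimpleGraph V} [Fintype V] [Fintype C]

open Classical in
/-- The neighbours of `v` in `S`. -/
noncomputable def ns (H : SimpleGraph V) (S : Finset V) (v : V) : Finset V :=
  S.filter fun z => H.Adj v z

theorem mem_ns {S : Finset V} {v z : V} : z ∈ ns H S v ↔ z ∈ S ∧ H.Adj v z := by simp [ns]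

theorem two_small (hc : Cr C H) (S : Finset V) (d : ℕ) (hS : ∀ v ∈ S, 1 ≤ dg H v)
    (hd : ∀ v ∈ S, dg H v ≤ d) (h2 : 2 * d ≤ Fintype.card C + 1) :
    3 * S.card ≤ Fintype.card V := by
  classical
  let N : Finset V := univ.filter fun y => ∃ x ∈ S, H.Adj x y
  have hN : ∀ y, y ∈ N ↔ ∃ x ∈ S, H.Adj x y := by
    intro y
    simp [N]
  have hdisj : Disjoint S N := by
    rw [Finset.disjoint_left]
    intro y hy hyN
    rw [hN] at hyN
    obtain ⟨x, hx, hxy⟩ := hyN
    have h1 := hc.edge hxy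
    have h3 := hd x hx
    have h4 := hd y hy
    omega
  have hpos : ∀ x ∈ S, ∀ y, H.Adj x y → 1 ≤ (ns H S y).card := by
    intro x hx y hxy
    exact Finset.card_pos.2 ⟨x, mem_ns.2 ⟨hx, hxy.symm⟩⟩
  have hle : ∀ x ∈ S, ∀ v, (ns H S v).card ≤ (sn C H x v).card := by
    intro x hx v
    apply Finset.card_le_card
    intro z hz
    rw [mem_ns] at hz
    rw [mem_sn]
    refine ⟨hz.2, ?_⟩
    have h3 := hd x hx
    have h4 := hd z hz.1
    unfold Sm
    omega
  -- the weight received by `x`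
  have hx2 : ∀ x ∈ S, (2 : ℚ) ≤ ∑ y ∈ nb H x, (1 : ℚ) / (ns H S y).card := by
    intro x hx
    have hne : (nb H x).Nonempty := Finset.card_pos.1 (by
      have := hS x hx
      rw [dg] at this
      omega)
    obtain ⟨y₀, hy₀, hmax⟩ := Finset.exists_max_image (nb H x) (fun y => (ns H S y).card) hne
    rw [mem_nb] at hy₀
    obtain ⟨Y, hY1, hY2, hY3⟩ := wood hc hy₀.symm
    have hYsub : Y ⊆ nb H x := by
      intro v hv
      rw [mem_nb]
      exact hY1 v hv
    have hq : (ns H S y₀).card ≤ Y.card := (hle x hx y₀).trans hY2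
    have hq1 : 1 ≤ Y.card := (hpos x hx y₀ hy₀).trans hq
    have hYt : ∀ v ∈ Y, (ns H S v).card + Y.card ≤ dg H x := fun v hv =>
      (Nat.add_le_add_right (hle x hx v) _).trans (hY3 v hv)
    obtain ⟨v₀, hv₀⟩ := Finset.card_pos.1 hq1
    have hqt : Y.card + 1 ≤ dg H x := by
      have h1 := hYt v₀ hv₀
      have h3 := hpos x hx v₀ (hY1 v₀ hv₀)
      omega
    obtain ⟨r, hr⟩ : ∃ r, dg H x = Y.card + r := ⟨dg H x - Y.card, by omega⟩
    have hr1 : 1 ≤ r := by omega
    have hsd : (nb H x \ Y).card = r := by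
      rw [Finset.card_sdiff_of_subset hYsub]
      have : (nb H x).card = Y.card + r := hr
      omega
    have hqQ : (0 : ℚ) < (Y.card : ℚ) := by exact_mod_cast hq1
    have hrQ : (0 : ℚ) < (r : ℚ) := by exact_mod_cast hr1
    rw [← Finset.sum_sdiff hYsub]
    have hA : (Y.card : ℚ) * (1 / (r : ℚ)) ≤ ∑ y ∈ Y, (1 : ℚ) / (ns H S y).card := by
      rw [← nsmul_eq_mul, ← Finset.sum_const]
      apply Finset.sum_le_sum
      intro v hv
      have h1 := hYt v hv
      have h3 := hpos x hx v (hY1 v hv)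
      apply one_div_le_one_div_of_le
      · exact_mod_cast h3
      · have : (ns H S v).card ≤ r := by omega
        exact_mod_cast this
    have hB : (r : ℚ) * (1 / (Y.card : ℚ)) ≤ ∑ y ∈ nb H x \ Y, (1 : ℚ) / (ns H S y).card := by
      have h0 : (r : ℚ) * (1 / (Y.card : ℚ)) = ∑ _y ∈ nb H x \ Y, 1 / (Y.card : ℚ) := by
        rw [Finset.sum_const, nsmul_eq_mul, hsd]
      rw [h0]
      apply Finset.sum_le_sum
      intro v hv
      rw [Finset.mem_sdiff, mem_nb] at hv
      have h3 := hpos x hx v hv.1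
      apply one_div_le_one_div_of_le
      · exact_mod_cast h3
      · have : (ns H S v).card ≤ Y.card := (hmax v (mem_nb.2 hv.1)).trans hq
        exact_mod_cast this
    have hC : (2 : ℚ) ≤ (Y.card : ℚ) * (1 / (r : ℚ)) + (r : ℚ) * (1 / (Y.card : ℚ)) := by
      have h1 : (Y.card : ℚ) * (1 / (r : ℚ)) + (r : ℚ) * (1 / (Y.card : ℚ)) - 2 =
          ((Y.card : ℚ) - r) ^ 2 / (Y.card * r) := by
        field_simp
        ring
      have h3 : 0 ≤ ((Y.card : ℚ) - r) ^ 2 / (Y.card * r) := by positivity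
      linarith
    linarith
  have hsum : (2 : ℚ) * S.card ≤ ∑ x ∈ S, ∑ y ∈ nb H x, (1 : ℚ) / (ns H S y).card := by
    rw [mul_comm, ← nsmul_eq_mul, ← Finset.sum_const]
    exact Finset.sum_le_sum hx2
  have hswap : ∑ x ∈ S, ∑ y ∈ nb H x, (1 : ℚ) / (ns H S y).card =
      ∑ y ∈ N, ∑ x ∈ ns H S y, (1 : ℚ) / (ns H S y).card := by
    apply Finset.sum_comm'
    intro x y
    rw [mem_nb, mem_ns, hN]
    constructor
    · rintro ⟨h1, h3⟩
      exact ⟨⟨h1, h3.symm⟩, x, h1, h3⟩
    · rintro ⟨⟨h1, h3⟩, _⟩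
      exact ⟨h1, h3.symm⟩
  have hone : ∑ y ∈ N, ∑ x ∈ ns H S y, (1 : ℚ) / (ns H S y).card = N.card := by
    rw [Finset.card_eq_sum_ones]
    push_cast
    apply Finset.sum_congr rfl
    intro y hy
    rw [hN] at hy
    obtain ⟨x, hx, hxy⟩ := hy
    have h3 := hpos x hx y hxy
    rw [Finset.sum_const, nsmul_eq_mul]
    have h4 : ((ns H S y).card : ℚ) ≠ 0 := by
      have : (ns H S y).card ≠ 0 := by omega
      exact_mod_cast this
    field_simp
  have h1 : 2 * S.card ≤ N.card := by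
    rw [hswap, hone] at hsum
    exact_mod_cast hsum
  have h3 := Finset.card_union_of_disjoint hdisj
  have h4 : (S ∪ N).card ≤ Fintype.card V := Finset.card_le_univ _
  omega

end Pool.Agent.TwoSided
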