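import Pool.Agent.Vizing.Basic

/-!
# Vizing's adjacency lemma

An edge colouring is a family of involutions (`Pool.Agent.Vizing.Col`).  A fan at `x` starting at the end `y` of the
uncoloured edge `y x` is given by a list of colours.
-/

set_option autoImplicit false
set_option linter.unusedSectionVars false

namespace Pool.Agent.TwoSided

open Finset Pool.Agent.Vizing

variable {V C : Type} {H : SimpleGraph V} {m : C → V → V}

/-- The colours `cs` lead from `y` to `v`: each colour is missing at the present vertex `u` and the next vertex is the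
other end of the edge of this colour at `x`. -/
def FP (m : C → V → V) (x : V) : V → List C → V → Prop
  | y, [], v => y = v
  | y, c :: cs, v => m c y = y ∧ FP m x (m c x) cs v

theorem FP_append {x : V} : ∀ {l₁ l₂ : List C} {y v : V}, FP m x y (l₁ ++ l₂) v ↔
    ∃ w, FP m x y l₁ w ∧ FP m x w l₂ v
  | [], l₂, y, v => by
    simp [FP]
  | c :: l₁, l₂, y, v => by
    simp only [List.cons_append, FP]
    rw [FP_append]
    constructor
    · rintro ⟨h, w, h1, h2⟩
      exact ⟨w, ⟨h, h1⟩, h2⟩
    · rintro ⟨w, ⟨h, h1⟩, h2⟩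
      exact ⟨h, w, h1, h2⟩

theorem FP_congr {m' : C → V → V} {x : V} : ∀ {cs : List C} {y v : V},
    (∀ d ∈ cs, ∀ w, m' d w = m d w) → FP m x y cs v → FP m' x y cs v
  | [], _, _, _, h => h
  | c :: cs, y, v, hc, h => by
    obtain ⟨h1, h2⟩ := h
    have h3 := hc c (by simp)
    refine ⟨by rw [h3]; exact h1, ?_⟩
    rw [h3]
    exact FP_congr (fun d hd w => hc d (by simp [hd]) w) h2

theorem no_common (hnc : ¬ ∃ m' : C → V → V, Col H [] m') {y x : V} (hm : Col H [s(y, x)] m)
    (hyx : H.Adj y x) {c : C} (h1 : m c y = y) (h2 : m c x = x) : False := by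
  apply hnc
  exact ⟨_, hm.add (T' := []) hyx.ne hyx (by simp) h1 h2 (by simp)⟩

theorem unc {y x : V} (hm : Col H [s(y, x)] m) (hyx : y ≠ x) (c : C) : m c x ≠ y := by
  intro h
  have := hm.notT c x (by rw [h]; exact hyx)
  apply this
  rw [h, Sym2.eq_swap]
  simp

/-- No colour is missing at `x` and at a vertex of a fan. -/
theorem fan_miss (hnc : ¬ ∃ m' : C → V → V, Col H [] m') {x : V} (n : ℕ) :
    ∀ (m : C → V → V) (y : V) (cs : List C) (v : V) (β : C), cs.length = n → Col H [s(y, x)] m →
      H.Adj y x → FP m x y cs v → m β v = v → m β x = x → False := by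
  induction n using Nat.strong_induction_on with
  | _ n ih =>
    intro m y cs v β hn hm hyx hF hv hx
    cases cs with
    | nil =>
      have : y = v := hF
      subst this
      exact no_common hnc hm hyx hv hx
    | cons c cs =>
      obtain ⟨hc, hF'⟩ := hF
      by_cases hcx : m c x = x
      · exact no_common hnc hm hyx hc hcx
      have hadj := hm.adj c x hcx
      have hy1 : m c x ≠ y := unc hm hyx.ne c
      rw [List.length_cons] at hn
      by_cases hmem : c ∈ cs
      · obtain ⟨l₁, l₂, rfl⟩ := List.append_of_mem hmem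
        rw [FP_append] at hF'
        obtain ⟨w, h1, h2, h3⟩ := hF'
        refine ih (c :: l₂).length ?_ m y (c :: l₂) v β rfl hm hyx ⟨hc, h3⟩ hv hx
        simp only [List.length_append, List.length_cons] at hn ⊢
        omega
      · have hm1 := hm.rem (Ne.symm hcx) (u := x) (v := m c x) rfl
        have hm2 := hm1.add (c := c) (u := y) (v := x) hyx.ne hyx (by simp)
          (remC_fixed _ _ _ _ _ hc) (remC_u _ _ _) (T' := [s(m c x, x)]) (by
            intro e
            simp only [List.mem_cons, List.not_mem_nil, or_false]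
            constructor
            · rintro rfl
              refine ⟨Or.inl Sym2.eq_swap, ?_⟩
              intro h
              rw [Sym2.eq_iff] at h
              rcases h with ⟨h4, _⟩ | ⟨_, h4⟩
              · exact hy1 h4
              · exact hyx.ne h4.symm
            · rintro ⟨h | h, h'⟩
              · rw [h, Sym2.eq_swap]
              · exact absurd h h')
        have hβ : β ≠ c := by
          rintro rfl
          exact hcx hx
        have hother : ∀ d, d ≠ c → ∀ w, addC (remC m c x (m c x)) c y x d w = m d w := by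
          intro d hd w
          rw [addC_other_colour hd, remC_other_colour hd]
        refine ih cs.length (by omega) _ (m c x) cs v β rfl hm2 hadj.symm ?_ ?_ ?_
        · refine FP_congr ?_ hF'
          intro d hd w
          exact hother d (fun h => hmem (h ▸ hd)) w
        · rw [hother β hβ, hv]
        · rw [hother β hβ, hx]

/-- The last vertex of a fan is a neighbour of `x`. -/
theorem FP_last {x : V} : ∀ {cs : List C} {y v : V}, FP m x y cs v →
    v = y ∨ ∃ (l : List C) (w : V) (c : C), FP m x y l w ∧ m c w = w ∧ v = m c x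
  | [], y, v, h => Or.inl (by
      have h' : y = v := h
      exact h'.symm)
  | c :: cs, y, v, h => by
    obtain ⟨h1, h2⟩ := h
    rcases FP_last h2 with h3 | ⟨l, w, d, h3, h4, h5⟩
    · exact Or.inr ⟨[], y, c, rfl, h1, h3⟩
    · exact Or.inr ⟨c :: l, w, d, ⟨h1, h3⟩, h4, h5⟩

theorem fan_adj (hnc : ¬ ∃ m' : C → V → V, Col H [] m') {x y v : V} (hm : Col H [s(y, x)] m)
    (hyx : H.Adj y x) {cs : List C} (h : FP m x y cs v) : H.Adj x v := by
  rcases FP_last h with h3 | ⟨l, w, d, h3, h4, h5⟩
  · rw [h3]
    exact hyx.symm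
  · have h6 : m d x ≠ x := fun h6 => fan_miss hnc _ m y l w d rfl hm hyx h3 h4 h6
    rw [h5]
    exact hm.adj d x h6

/-- A vertex of the fan which misses `β` is linked to `x`. -/
theorem fan_linked (hnc : ¬ ∃ m' : C → V → V, Col H [] m') {x y : V} (hm : Col H [s(y, x)] m)
    (hyx : H.Adj y x) {α β : C} (hα : m α x = x) (n : ℕ) :
    ∀ (cs : List C) (v : V), cs.length = n → FP m x y cs v → m β v = v →
      v ∈ orb (m α) (m β) x := by
  induction n using Nat.strong_induction_on with
  | _ n ih =>
    intro cs v hn hF hv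
    by_contra hvK
    by_cases hαβ : α = β
    · subst hαβ
      exact fan_miss hnc _ m y cs v α rfl hm hyx hF hv hα
    have hm' := hm.kswap hαβ (cl_orb (m α) (m β) x)
    have key : ∀ (l₂ l₁ : List C) (w : V), cs = l₁ ++ l₂ → FP m x y l₁ w → FP m x w l₂ v →
        ∃ cs', FP (kswap m α β (orb (m α) (m β) x)) x w cs' v := by
      intro l₂
      induction l₂ with
      | nil =>
        intro l₁ w _ _ h
        exact ⟨[], h⟩
      | cons c l₂ ih2 =>
        intro l₁ w hcs h1 h2
        obtain ⟨h3, h4⟩ := h2
        have h5 : FP m x y (l₁ ++ [c]) (m c x) := by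
          rw [FP_append]
          exact ⟨w, h1, h3, rfl⟩
        obtain ⟨cs', h6⟩ := ih2 (l₁ ++ [c]) (m c x) (by rw [hcs]; simp) h5 h4
        by_cases hcα : c = α
        · subst hcα
          exact (fan_miss hnc _ m y l₁ w c rfl hm hyx h1 h3 hα).elim
        by_cases hcβ : c = β
        · subst hcβ
          have h7 : w ∈ orb (m α) (m c) x := by
            refine ih l₁.length ?_ l₁ w rfl h1 h3
            rw [← hn, hcs, List.length_append, List.length_cons]
            omega
          refine ⟨α :: cs', ?_, ?_⟩
          · rw [kswap_a_in _ _ h7]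
            exact h3
          · rw [kswap_a_in _ _ (self_mem_orb _ _ _)]
            exact h6
        · refine ⟨c :: cs', ?_, ?_⟩
          · rw [kswap_other hcα hcβ]
            exact h3
          · rw [kswap_other hcα hcβ]
            exact h6
    obtain ⟨cs', h⟩ := key cs [] y rfl rfl hF
    refine fan_miss hnc _ _ y cs' v β rfl hm' hyx h ?_ ?_
    · rw [kswap_b_out hαβ hvK, hv]
    · rw [kswap_b_in hαβ (self_mem_orb _ _ _), hα]

/-- Different vertices of the fan miss different colours. -/
theorem fan_disjoint (hnc : ¬ ∃ m' : C → V → V, Col H [] m') {x y : V} (hm : Col H [s(y, x)] m)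
    (hyx : H.Adj y x) {α β : C} (hα : m α x = x) {cs cs' : List C} {v v' : V}
    (h : FP m x y cs v) (h' : FP m x y cs' v') (hv : m β v = v) (hv' : m β v' = v') : v = v' := by
  by_contra hne
  exact orb_three (hm.inv α) (hm.inv β) (Or.inl hα) (Or.inr hv) (Or.inr hv')
    (fan_adj hnc hm hyx h).ne' (fan_adj hnc hm hyx h').ne' hne
    (fan_linked hnc hm hyx hα _ cs v rfl h hv) (fan_linked hnc hm hyx hα _ cs' v' rfl h' hv')

/-! ### Counting -/

variable [Fintype V] [Fintype C]

open Classical in
/-- The neighbours of `v`. -/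
noncomputable def nb (H : SimpleGraph V) (v : V) : Finset V := univ.filter fun u => H.Adj v u

/-- The degree of `v`. -/
noncomputable def dg (H : SimpleGraph V) (v : V) : ℕ := (nb H v).card

open Classical in
/-- The colours missing at `v`. -/
noncomputable def miss (m : C → V → V) (v : V) : Finset C := univ.filter fun c => m c v = v

theorem mem_nb {v u : V} : u ∈ nb H v ↔ H.Adj v u := by simp [nb]

theorem mem_miss {v : V} {c : C} : c ∈ miss m v ↔ m c v = v := by simp [miss]

open Classical in
theorem card_miss_gen {T : List (Sym2 V)} (hm : Col H T m) (v : V) :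
    (miss m v).card + ((nb H v).filter fun u => s(v, u) ∉ T).card = Fintype.card C := by
  have h1 : (univ.filter fun c => m c v ≠ v).card = ((nb H v).filter fun u => s(v, u) ∉ T).card := by
    apply Finset.card_bij (fun c _ => m c v)
    · intro c hc
      simp only [mem_filter, mem_univ, true_and] at hc
      simp only [mem_filter, mem_nb]
      exact ⟨hm.adj _ _ hc, hm.notT _ _ hc⟩
    · intro c hc d hd h
      simp only [mem_filter, mem_univ, true_and] at hc
      exact hm.uniq c d v h hc
    · intro u hu
      simp only [mem_filter, mem_nb] at hu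
      obtain ⟨c, hc⟩ := hm.cov v u hu.1 hu.2
      refine ⟨c, ?_, hc⟩
      simp only [mem_filter, mem_univ, true_and]
      rw [hc]
      exact hu.1.ne'
  rw [← h1, miss, Finset.card_filter_add_card_filter_not, Finset.card_univ]

theorem card_miss {y x : V} (hm : Col H [s(y, x)] m) {v : V} (hvx : v ≠ x) (hvy : v ≠ y) :
    (miss m v).card + dg H v = Fintype.card C := by
  classical
  have h := card_miss_gen hm v
  rw [dg]
  rw [Finset.filter_true_of_mem] at h
  · exact h
  · intro u _ hu
    simp only [List.mem_singleton, Sym2.eq_iff] at hu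
    rcases hu with ⟨h1, _⟩ | ⟨h1, _⟩
    · exact hvy h1
    · exact hvx h1

theorem card_miss_y {y x : V} (hm : Col H [s(y, x)] m) (hyx : H.Adj y x) :
    (miss m y).card + dg H y = Fintype.card C + 1 := by
  classical
  have h := card_miss_gen hm y
  have h1 : (nb H y).filter (fun u => s(y, u) ∉ [s(y, x)]) = (nb H y).erase x := by
    ext u
    simp only [mem_filter, mem_erase, List.mem_singleton, Sym2.eq_iff, true_and, ne_eq]
    constructor
    · rintro ⟨h1, h2⟩
      exact ⟨fun h => h2 (Or.inl h), h1⟩
    · rintro ⟨h1, h2⟩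
      refine ⟨h2, ?_⟩
      rintro (h | ⟨h, _⟩)
      · exact h1 h
      · exact hyx.ne h
  rw [h1, Finset.card_erase_of_mem (mem_nb.2 hyx)] at h
  have : 0 < (nb H y).card := Finset.card_pos.2 ⟨x, mem_nb.2 hyx⟩
  rw [dg]
  omega

theorem card_miss_x {y x : V} (hm : Col H [s(y, x)] m) (hyx : H.Adj y x) :
    (miss m x).card + dg H x = Fintype.card C + 1 := by
  have hm' : Col H [s(x, y)] m := by
    rw [Sym2.eq_swap]
    exact hm
  exact card_miss_y hm' hyx.symm

open Classical in
/-- Vizing's adjacency lemma at one edge. -/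
theorem adjacency (hnc : ¬ ∃ m' : C → V → V, Col H [] m') (hdeg : ∀ v, dg H v ≤ Fintype.card C)
    {x y : V} (hyx : H.Adj y x) (hm : Col H [s(y, x)] m) :
    Fintype.card C + 1 ≤ dg H y +
      (univ.filter fun u => H.Adj x u ∧ u ≠ y ∧ dg H u = Fintype.card C).card := by
  have hB := card_miss_x hm hyx
  have hBpos : 0 < (miss m x).card := by have := hdeg x; omega
  obtain ⟨α, hα⟩ := Finset.card_pos.1 hBpos
  rw [mem_miss] at hα
  let F : Finset V := univ.filter fun v => ∃ cs, FP m x y cs v
  have hF : ∀ v, v ∈ F ↔ ∃ cs, FP m x y cs v := by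
    intro v
    simp [F]
  have hyF : y ∈ F := (hF y).2 ⟨[], rfl⟩
  -- every missing colour leads to a new vertex of the fan
  have hcard : ∑ v ∈ F, (miss m v).card ≤ (F.erase y).card := by
    rw [← Finset.card_sigma]
    apply Finset.card_le_card_of_injOn (fun p : (Σ _ : V, C) => m p.2 x)
    · rintro ⟨v, c⟩ hp
      rw [Finset.mem_coe, Finset.mem_sigma, hF, mem_miss] at hp
      obtain ⟨⟨cs, hcs⟩, hc⟩ := hp
      rw [Finset.mem_coe, Finset.mem_erase, hF]
      refine ⟨unc hm hyx.ne c, cs ++ [c], ?_⟩
      rw [FP_append]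
      exact ⟨v, hcs, hc, rfl⟩
    · rintro ⟨v, c⟩ hp ⟨w, d⟩ hq h
      rw [Finset.mem_coe, Finset.mem_sigma, hF, mem_miss] at hp hq
      obtain ⟨⟨cs, hcs⟩, hc⟩ := hp
      obtain ⟨⟨ds, hds⟩, hd⟩ := hq
      have hcx : m c x ≠ x := fun h6 => fan_miss hnc _ m y cs v c rfl hm hyx hcs hc h6
      have hcd : c = d := hm.uniq c d x h hcx
      subst hcd
      have hvw : v = w := fan_disjoint hnc hm hyx hα hcs hds hc hd
      subst hvw
      rfl
  have hsum : ∑ v ∈ F, (miss m v).card = (miss m y).card + ∑ v ∈ F.erase y, (miss m v).card :=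
    (Finset.add_sum_erase F (fun v => (miss m v).card) hyF).symm
  have hsplit : (F.erase y).card = ((F.erase y).filter fun v => dg H v = Fintype.card C).card +
      ((F.erase y).filter fun v => ¬ dg H v = Fintype.card C).card :=
    (Finset.card_filter_add_card_filter_not _).symm
  have hlow : ((F.erase y).filter fun v => ¬ dg H v = Fintype.card C).card ≤
      ∑ v ∈ F.erase y, (miss m v).card := by
    rw [Finset.card_eq_sum_ones]
    refine le_trans (Finset.sum_le_sum (g := fun v => (miss m v).card) ?_)
      (Finset.sum_le_sum_of_subset (Finset.filter_subset _ _))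
    intro v hv
    rw [Finset.mem_filter, Finset.mem_erase, hF] at hv
    obtain ⟨⟨hvy, cs, hcs⟩, hv2⟩ := hv
    have h1 := card_miss hm (fan_adj hnc hm hyx hcs).ne' hvy
    have h2 := hdeg v
    omega
  have hsub : ((F.erase y).filter fun v => dg H v = Fintype.card C).card ≤
      (univ.filter fun u => H.Adj x u ∧ u ≠ y ∧ dg H u = Fintype.card C).card := by
    apply Finset.card_le_card
    intro v hv
    rw [Finset.mem_filter, Finset.mem_erase, hF] at hv
    obtain ⟨⟨hvy, cs, hcs⟩, hv2⟩ := hv
    rw [Finset.mem_filter]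
    exact ⟨Finset.mem_univ _, fan_adj hnc hm hyx hcs, hvy, hv2⟩
  have hA := card_miss_y hm hyx
  omega

end Pool.Agent.TwoSided
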