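import Pool.Agent.Lib.MP_89b5c6_co.Cnt

/-!
# A graph and its complement: critical subgraphs on both sides
-/

set_option autoImplicit false
set_option linter.unusedSectionVars false

namespace Pool.Agent.TwoSided

open Finset Pool.Agent.Vizing

variable {V C : Type} {G H : SimpleGraph V} [Fintype V] [Fintype C]

theorem dg_mono {H G : SimpleGraph V} (h : H ≤ G) (v : V) : dg H v ≤ dg G v := by
  apply Finset.card_le_card
  intro u hu
  rw [mem_nb] at hu ⊢
  exact h hu

/-- A graph without an edge colouring has a critical subgraph. -/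
theorem ex_crit (G : SimpleGraph V) (hnc : ¬ ∃ m : C → V → V, Col G [] m)
    (hdeg : ∀ v, dg G v ≤ Fintype.card C) : ∃ H : SimpleGraph V, H ≤ G ∧ Cr C H := by
  classical
  induction G using WellFoundedLT.induction with
  | _ G ih =>
    by_cases hmin : ∀ y x, G.Adj y x → ∃ m : C → V → V, Col G [s(y, x)] m
    · exact ⟨G, le_rfl, hnc, hmin, hdeg⟩
    · push Not at hmin
      obtain ⟨y, x, hyx, hno⟩ := hmin
      have hle : G.deleteEdges {s(y, x)} ≤ G := SimpleGraph.deleteEdges_le _
      have hlt : G.deleteEdges {s(y, x)} < G := by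
        refine lt_of_le_of_ne hle ?_
        intro h
        have : (G.deleteEdges {s(y, x)}).Adj y x := by rw [h]; exact hyx
        rw [SimpleGraph.deleteEdges_adj] at this
        exact this.2 rfl
      obtain ⟨H, hH, hcr⟩ := ih _ hlt (by
        rintro ⟨m, hm⟩
        refine hno m ⟨hm.inv, ?_, ?_, ?_, hm.uniq⟩
        · intro c v h
          exact hle (hm.adj c v h)
        · intro c v h
          have := hm.adj c v h
          rw [SimpleGraph.deleteEdges_adj] at this
          simpa using this.2
        · intro u v huv h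
          apply hm.cov u v _ (by simp)
          rw [SimpleGraph.deleteEdges_adj]
          exact ⟨huv, by simpa using h⟩) (fun v => (dg_mono hle v).trans (hdeg v))
      exact ⟨H, hH.trans hle, hcr⟩

open Classical in
/-- The vertices of full degree. -/
noncomputable def full (C : Type) [Fintype C] (H : SimpleGraph V) : Finset V :=
  univ.filter fun v => dg H v = Fintype.card C

theorem mem_full {v : V} : v ∈ full C H ↔ dg H v = Fintype.card C := by simp [full]

/-- Vizing's adjacency lemma. -/
theorem Cr.val (hc : Cr C H) {x y : V} (hxy : H.Adj x y) :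
    Fintype.card C + 1 ≤ dg H y + (ns H (full C H) x).card := by
  classical
  obtain ⟨m, hm⟩ := hc.min y x hxy.symm
  have h := adjacency hc.nc hc.deg hxy.symm hm
  refine h.trans (Nat.add_le_add_left (Finset.card_le_card ?_) _)
  intro u hu
  rw [Finset.mem_filter] at hu
  rw [mem_ns, mem_full]
  exact ⟨hu.2.2.2, hu.2.1⟩

theorem Cr.ex_full (hc : Cr C H) : ∃ v, v ∈ full C H := by
  have hedge : ∃ a b, H.Adj a b := by
    by_contra hcon
    push Not at hcon
    apply hc.nc
    refine ⟨fun _ v => v, fun _ _ => rfl, fun _ _ h => absurd rfl h, fun _ _ h => absurd rfl h,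
      fun u v h => absurd h (hcon u v), fun _ _ _ _ h => absurd rfl h⟩
  obtain ⟨a, b, hab⟩ := hedge
  have h := hc.val hab
  have h1 := hc.deg b
  obtain ⟨v, hv⟩ := Finset.card_pos.1 (show 0 < (ns H (full C H) a).card by omega)
  exact ⟨v, (mem_ns.1 hv).1⟩

theorem Cr.one_le (hc : Cr C H) {x : V} (hx : x ∈ full C H) : 1 ≤ (ns H (full C H) x).card := by
  have h0 : 0 < dg H x := by
    obtain ⟨v, hv⟩ := hc.ex_full
    rw [mem_full] at hx hv
    by_contra h
    have h0 : Fintype.card C = 0 := by omega
    -- no edges at all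
    apply hc.nc
    refine ⟨fun _ v => v, fun _ _ => rfl, fun _ _ h => absurd rfl h, fun _ _ h => absurd rfl h,
      fun u v h => ?_, fun _ _ _ _ h => absurd rfl h⟩
    exfalso
    have h1 := hc.deg u
    have h2 : 0 < (nb H u).card := Finset.card_pos.2 ⟨v, mem_nb.2 h⟩
    rw [dg] at h1
    omega
  obtain ⟨z, hz⟩ := Finset.card_pos.1 h0
  rw [mem_nb] at hz
  have h := hc.val hz
  have h1 := hc.deg z
  omega

/-- All edges of `G` at a vertex of full degree are edges of the critical subgraph. -/
theorem full_adj (hHG : H ≤ G) (hG : ∀ v, dg G v ≤ Fintype.card C) {x : V} (hx : x ∈ full C H)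
    {u : V} (hu : G.Adj x u) : H.Adj x u := by
  rw [mem_full] at hx
  have hsub : nb H x ⊆ nb G x := by
    intro v hv
    rw [mem_nb] at hv ⊢
    exact hHG hv
  have heq : nb H x = nb G x := by
    apply Finset.eq_of_subset_of_card_le hsub
    have h1 := hG x
    rw [dg] at h1 hx
    omega
  rw [← mem_nb, heq, mem_nb]
  exact hu

theorem full_dg (hHG : H ≤ G) (hG : ∀ v, dg G v ≤ Fintype.card C) {x : V} (hx : x ∈ full C H) :
    dg G x = Fintype.card C := by
  rw [mem_full] at hx
  have h1 := hG x
  have h2 := dg_mono hHG x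
  omega

/-- One side of the argument. -/
structure Side (C C' : Type) [Fintype C] [Fintype C'] (G G' H H' : SimpleGraph V) (g : ℕ) : Prop where
  hc : Cr C H
  hHG : H ≤ G
  hG : ∀ v, dg G v ≤ Fintype.card C
  hc' : Cr C' H'
  hHG' : H' ≤ G'
  hG' : ∀ v, dg G' v ≤ Fintype.card C'
  sum : ∀ v, dg G v + dg G' v + 1 = Fintype.card V
  hg : Fintype.card C + Fintype.card C' + 1 = Fintype.card V + g
  cmp : ∀ u v, u ≠ v → G.Adj u v ∨ G'.Adj u v

variable {C' : Type} [Fintype C'] {G' H' : SimpleGraph V} {g : ℕ}

theorem Side.swap (s : Side C C' G G' H H' g) : Side C' C G' G H' H g :=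
  ⟨s.hc', s.hHG', s.hG', s.hc, s.hHG, s.hG, fun v => by have := s.sum v; omega,
    by have := s.hg; omega, fun u v h => (s.cmp u v h).symm⟩

theorem Side.pair (s : Side C C' G G' H H' g) {x y : V} (hx : x ∈ full C H) (hy : y ∈ full C' H')
    (h : G.Adj x y) : g + 1 ≤ (ns H (full C H) x).card := by
  have h1 := s.hc.val (full_adj s.hHG s.hG hx h)
  have h2 := full_dg s.hHG' s.hG' hy
  have h3 := s.sum y
  have h4 := dg_mono s.hHG y
  have h5 := s.hg
  omega

theorem Side.same (s : Side C C' G G' H H' g) {x : V} (hx : x ∈ full C H) (hy : x ∈ full C' H') :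
    g = 0 := by
  have h1 := full_dg s.hHG s.hG hx
  have h2 := full_dg s.hHG' s.hG' hy
  have h3 := s.sum x
  have h5 := s.hg
  omega

/-- If some vertex of full degree has at most `g` neighbours of full degree. -/
theorem Side.low (s : Side C C' G G' H H' g) {x : V} (hx : x ∈ full C H)
    (h : (ns H (full C H) x).card ≤ g) :
    (∀ y ∈ full C' H', g + 1 ≤ (ns H' (full C' H') y).card) ∧
      g + 2 + Fintype.card C + 1 ≤ Fintype.card V := by
  have hadj : ∀ y ∈ full C' H', G'.Adj y x := by
    intro y hy
    by_cases hxy : x = y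
    · subst hxy
      have h1 := s.same hx hy
      have h2 := s.hc.one_le hx
      omega
    · rcases s.cmp x y hxy with h1 | h1
      · have := s.pair hx hy h1
        omega
      · exact h1.symm
  have hY : ∀ y ∈ full C' H', g + 1 ≤ (ns H' (full C' H') y).card := fun y hy =>
    s.swap.pair hy hx (hadj y hy)
  refine ⟨hY, ?_⟩
  obtain ⟨y, hy⟩ := s.hc'.ex_full
  have h1 : (ns H' (full C' H') y).card + 1 ≤ (full C' H').card := by
    classical
    have h2 : ns H' (full C' H') y ⊆ (full C' H').erase y := by
      intro z hz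
      rw [mem_ns] at hz
      rw [Finset.mem_erase]
      exact ⟨hz.2.ne', hz.1⟩
    have h3 := Finset.card_le_card h2
    have h4 := Finset.card_erase_of_mem hy
    have h5 : 0 < (full C' H').card := Finset.card_pos.2 ⟨y, hy⟩
    omega
  have h2 : (full C' H').card ≤ dg G' x := by
    apply Finset.card_le_card
    intro y hy
    rw [mem_nb]
    exact (hadj y hy).symm
  have h3 := s.sum x
  have h4 := full_dg s.hHG s.hG hx
  have h5 := hY y hy
  omega

theorem Side.card_full (s : Side C C' G G' H H' g)
    (hX : ∀ x ∈ full C H, g + 1 ≤ (ns H (full C H) x).card) : g + 2 ≤ (full C H).card := by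
  classical
  obtain ⟨y, hy⟩ := s.hc.ex_full
  have h2 : ns H (full C H) y ⊆ (full C H).erase y := by
    intro z hz
    rw [mem_ns] at hz
    rw [Finset.mem_erase]
    exact ⟨hz.2.ne', hz.1⟩
  have h3 := Finset.card_le_card h2
  have h4 := Finset.card_erase_of_mem hy
  have h5 : 0 < (full C H).card := Finset.card_pos.2 ⟨y, hy⟩
  have h6 := hX y hy
  omega

/-- The case of small minimum degrees. -/
theorem Side.spread (s : Side C C' G G' H H' g)
    (hX : ∀ x ∈ full C H, g + 1 ≤ (ns H (full C H) x).card)
    (hY : ∀ y ∈ full C' H', g + 1 ≤ (ns H' (full C' H') y).card)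
    (h1 : Fintype.card V ≤ g + 2 + Fintype.card C)
    (h2 : Fintype.card V ≤ g + 2 + Fintype.card C') : False := by
  classical
  have hg := s.hg
  have hP := s.card_full hX
  have hQ := s.swap.card_full hY
  have hpos : ∀ y ∈ full C' H', 1 ≤ dg H y := by
    intro y hy
    by_contra hcon
    have h0 : dg H y = 0 := by omega
    have hno : ∀ x ∈ full C H, ¬ G.Adj x y := by
      intro x hx hxy
      have h3 := full_adj s.hHG s.hG hx hxy
      have h4 : 0 < dg H y := Finset.card_pos.2 ⟨x, mem_nb.2 h3.symm⟩
      omega
    by_cases hg0 : g = 0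
    · have h3 := hY y hy
      obtain ⟨z, hz⟩ := Finset.card_pos.1 (show 0 < (ns H' (full C' H') y).card by omega)
      rw [mem_ns, mem_full] at hz
      have h4 := s.hc'.edge hz.2
      rw [mem_full] at hy
      omega
    · have hdisj : Disjoint (full C H) (ns H' (full C' H') y) := by
        rw [Finset.disjoint_left]
        intro x hx hx'
        rw [mem_ns] at hx'
        exact hg0 (s.same hx hx'.1)
      have hsub : full C H ∪ ns H' (full C' H') y ⊆ nb G' y := by
        intro x hx
        rw [mem_nb]
        rw [Finset.mem_union, mem_ns] at hx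
        rcases hx with hx | hx
        · have hxy : x ≠ y := by
            rintro rfl
            exact hg0 (s.same hx hy)
          rcases s.cmp x y hxy with h3 | h3
          · exact absurd h3 (hno x hx)
          · exact h3.symm
        · exact s.hHG' hx.2
      have h3 := Finset.card_le_card hsub
      rw [Finset.card_union_of_disjoint hdisj] at h3
      have h4 := full_dg s.hHG' s.hG' hy
      rw [dg] at h4
      have h5 := hY y hy
      omega
  have h3 := two_small s.hc (full C' H') (Fintype.card V - 1 - Fintype.card C') hpos (by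
    intro y hy
    have h4 := full_dg s.hHG' s.hG' hy
    have h5 := s.sum y
    have h6 := dg_mono s.hHG y
    omega) (by omega)
  omega

/-- The two-sided theorem. -/
theorem Side.main (s : Side C C' G G' H H' g)
    (h : Fintype.card V ≤ g + 2 + Fintype.card C' ∨
      ∃ x ∈ full C H, (ns H (full C H) x).card ≤ g)
    (h' : Fintype.card V ≤ g + 2 + Fintype.card C ∨
      ∃ y ∈ full C' H', (ns H' (full C' H') y).card ≤ g) : False := by
  by_cases hX : ∀ x ∈ full C H, g + 1 ≤ (ns H (full C H) x).card
  · by_cases hY : ∀ y ∈ full C' H', g + 1 ≤ (ns H' (full C' H') y).card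
    · rcases h with h | ⟨x, hx, h⟩
      · rcases h' with h' | ⟨y, hy, h'⟩
        · exact s.spread hX hY h' h
        · have := hY y hy
          omega
      · have := hX x hx
        omega
    · push Not at hY
      obtain ⟨y, hy, hlt⟩ := hY
      have h1 := s.swap.low hy (by omega)
      rcases h with h | ⟨x, hx, h⟩
      · omega
      · have := h1.1 x hx
        omega
  · push Not at hX
    obtain ⟨x, hx, hlt⟩ := hX
    have h1 := s.low hx (by omega)
    rcases h' with h' | ⟨y, hy, h'⟩
    · omega
    · have := h1.1 y hy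
      omega

end Pool.Agent.TwoSided
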