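import Pool.Agent.Lib.MP_89b5c6_co.Fan

/-!
# Small neighbours in edge-critical graphs (Woodall's second adjacency lemma)
-/

set_option autoImplicit false
set_option linter.unusedSectionVars false

namespace Pool.Agent.TwoSided

open Finset Pool.Agent.Vizing

variable {V C : Type} {H : SimpleGraph V} {m : C → V → V}

/-! ### Three operations -/

/-- Colour the edge `y x` by a colour missing at `y` and uncolour the edge of this colour at `x`. -/
theorem shift {x y : V} (hm : Col H [s(y, x)] m) (hyx : H.Adj y x) {c : C} (hc : m c y = y)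
    (hcx : m c x ≠ x) : ∃ m' : C → V → V, Col H [s(m c x, x)] m' ∧
      (∀ d, d ≠ c → ∀ w, m' d w = m d w) := by
  have hadj := hm.adj c x hcx
  have hy1 : m c x ≠ y := unc hm hyx.ne c
  have hm1 := hm.rem (Ne.symm hcx) (u := x) (v := m c x) rfl
  have hm2 := hm1.add (c := c) (u := y) (v := x) hyx.ne hyx (by simp)
    (remC_fixed _ _ _ _ _ hc) (remC_u _ _ _) (T' := [s(m c x, x)]) (by
      intro e
      simp only [List.mem_cons, List.not_mem_nil, or_false]
      constructor
      · rintro rfl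
        refine ⟨Or.inl Sym2.eq_swap, ?_⟩
        intro h
        rw [Sym2.eq_iff] at h
        rcases h with ⟨h4, _⟩ | ⟨_, h4⟩
        · exact hy1 h4
        · exact hyx.ne h4.symm
      · rintro ⟨h | h, h'⟩
        · rw [h, Sym2.eq_swap]
        · exact absurd h h')
  refine ⟨_, hm2, ?_⟩
  intro d hd w
  rw [addC_other_colour hd, remC_other_colour hd]

/-- Recolour an edge. -/
theorem recolor {T : List (Sym2 V)} (hm : Col H T m) {c d : C} (hcd : c ≠ d) {u v : V}
    (hc : m c u = v) (hd : m d u = u) (hd' : m d v = v) : ∃ m' : C → V → V, Col H T m' ∧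
      m' c u = u ∧ m' c v = v ∧ m' d u = v ∧ m' d v = u ∧
      (∀ e, e ≠ c → e ≠ d → ∀ w, m' e w = m e w) ∧
      (∀ w, w ≠ u → w ≠ v → ∀ e, m' e w = m e w) := by
  have hcv : m c v = u := by rw [← hc, hm.inv]
  have hu : u ∈ ({u, v} : Set V) := by simp
  have hv : v ∈ ({u, v} : Set V) := by simp
  have hcl : Cl (m c) (m d) ({u, v} : Set V) := by
    constructor
    · rintro w (rfl | h)
      · rw [hc]
        exact hv
      · rw [Set.mem_singleton_iff] at h
        rw [h, hcv]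
        exact hu
    · rintro w (rfl | h)
      · rw [hd]
        exact hu
      · rw [Set.mem_singleton_iff] at h
        rw [h, hd']
        exact hv
  refine ⟨_, hm.kswap hcd hcl, ?_, ?_, ?_, ?_, ?_, ?_⟩
  · rw [kswap_a_in _ _ hu, hd]
  · rw [kswap_a_in _ _ hv, hd']
  · rw [kswap_b_in hcd hu, hc]
  · rw [kswap_b_in hcd hv, hcv]
  · intro e h1 h2 w
    rw [kswap_other h1 h2]
  · intro w h1 h2 e
    have hw : w ∉ ({u, v} : Set V) := by
      rintro (h | h)
      · exact h1 h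
      · exact h2 h
    by_cases hec : e = c
    · subst hec
      rw [kswap_a_out _ _ hw]
    · by_cases hed : e = d
      · subst hed
        rw [kswap_b_out hcd hw]
      · rw [kswap_other hec hed]

/-- Kempe change at a third end of a chain. -/
theorem swap_at (hnc : ¬ ∃ m' : C → V → V, Col H [] m') {x y : V} (hm : Col H [s(y, x)] m)
    (hyx : H.Adj y x) {α β : C} (hα : m α x = x) (hβ : m β y = y) {z : V} (hzx : z ≠ x)
    (hzy : z ≠ y) (hz : m α z = z ∨ m β z = z) : ∃ m' : C → V → V, Col H [s(y, x)] m' ∧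
      m' α z = m β z ∧ m' β z = m α z ∧ (∀ c, m' c x = m c x) ∧ (∀ c, m' c y = m c y) ∧
      (∀ c, c ≠ α → c ≠ β → ∀ u, m' c u = m c u) := by
  have hne : α ≠ β := by
    rintro rfl
    exact no_common hnc hm hyx hβ hα
  have hy : y ∈ orb (m α) (m β) x := fan_linked hnc hm hyx hα 0 [] y rfl rfl hβ
  have hzK : z ∉ orb (m α) (m β) x := by
    intro h
    exact orb_three (hm.inv α) (hm.inv β) (Or.inl hα) (Or.inr hβ) hz hyx.ne hzx (Ne.symm hzy) hy h
  have hxz : x ∉ orb (m α) (m β) z := fun h => hzK (orb_symm (hm.inv α) (hm.inv β) h)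
  have hyz : y ∉ orb (m α) (m β) z := fun h =>
    hzK (orb_trans hy (orb_symm (hm.inv α) (hm.inv β) h))
  refine ⟨_, hm.kswap hne (cl_orb (m α) (m β) z), ?_, ?_, ?_, ?_, ?_⟩
  · rw [kswap_a_in _ _ (self_mem_orb _ _ _)]
  · rw [kswap_b_in hne (self_mem_orb _ _ _)]
  · intro c
    by_cases hca : c = α
    · subst hca
      rw [kswap_a_out _ _ hxz]
    · by_cases hcb : c = β
      · subst hcb
        rw [kswap_b_out hne hxz]
      · rw [kswap_other hca hcb]
  · intro c
    by_cases hca : c = α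
    · subst hca
      rw [kswap_a_out _ _ hyz]
    · by_cases hcb : c = β
      · subst hcb
        rw [kswap_b_out hne hyz]
      · rw [kswap_other hca hcb]
  · intro c hca hcb u
    rw [kswap_other hca hcb]

/-! ### Critical graphs -/

variable [Fintype V] [Fintype C]

/-- Edge-critical graphs. -/
structure Cr (C : Type) [Fintype C] (H : SimpleGraph V) : Prop where
  nc : ¬ ∃ m : C → V → V, Col H [] m
  min : ∀ y x, H.Adj y x → ∃ m : C → V → V, Col H [s(y, x)] m
  deg : ∀ v, dg H v ≤ Fintype.card C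

/-- The vertex `z` is small with respect to `x`. -/
def Sm (C : Type) [Fintype C] (H : SimpleGraph V) (x z : V) : Prop :=
  dg H z + dg H x ≤ Fintype.card C + 1

theorem ex_miss_x (hc : Cr C H) {x y : V} (hm : Col H [s(y, x)] m) (hyx : H.Adj y x) :
    ∃ ε, m ε x = x := by
  have hB := card_miss_x hm hyx
  have hBpos : 0 < (miss m x).card := by have := hc.deg x; omega
  obtain ⟨α, hα⟩ := Finset.card_pos.1 hBpos
  exact ⟨α, mem_miss.1 hα⟩

theorem ex_miss_y (hc : Cr C H) {x y : V} (hm : Col H [s(y, x)] m) (hyx : H.Adj y x) :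
    ∃ ε, m ε y = y := by
  have hB := card_miss_y hm hyx
  have hBpos : 0 < (miss m y).card := by have := hc.deg y; omega
  obtain ⟨α, hα⟩ := Finset.card_pos.1 hBpos
  exact ⟨α, mem_miss.1 hα⟩

open Classical in
/-- Adjacent vertices have large degree sum. -/
theorem Cr.edge (hc : Cr C H) {x y : V} (hyx : H.Adj y x) :
    Fintype.card C + 2 ≤ dg H y + dg H x := by
  obtain ⟨m, hm⟩ := hc.min y x hyx
  have h1 := card_miss_y hm hyx
  have h2 := card_miss_x hm hyx
  have hd : Disjoint (miss m y) (miss m x) := by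
    rw [Finset.disjoint_left]
    intro c h1 h2
    rw [mem_miss] at h1 h2
    exact no_common hc.nc hm hyx h1 h2
  have h3 := Finset.card_union_of_disjoint hd
  have h4 : (miss m y ∪ miss m x).card ≤ Fintype.card C := Finset.card_le_univ _
  omega

theorem Cr.not_sm (hc : Cr C H) {x y : V} (hxy : H.Adj x y) : ¬ Sm C H x y := by
  intro h
  have := hc.edge hxy.symm
  unfold Sm at h
  omega

open Classical in
/-- Common missing colours of `x` and a small vertex. -/
theorem eps_card {x y : V} (hm : Col H [s(y, x)] m) (hyx : H.Adj y x) {z : V} (hzx : z ≠ x)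
    (hzy : z ≠ y) (hs : Sm C H x z) (X : Finset C) (hX : ∀ r ∈ X, m r x ≠ x ∧ m r z ≠ z) :
    X.card ≤ (miss m x ∩ miss m z).card := by
  have h1 := card_miss hm hzx hzy
  have h2 := card_miss_x hm hyx
  have h3 := Finset.card_union_add_card_inter (miss m x) (miss m z)
  have hd : Disjoint (miss m x ∪ miss m z) X := by
    rw [Finset.disjoint_left]
    intro c h1 h2
    have h3 := hX c h2
    rw [Finset.mem_union, mem_miss, mem_miss] at h1
    rcases h1 with h1 | h1
    · exact h3.1 h1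
    · exact h3.2 h1
  have h4 := Finset.card_union_of_disjoint hd
  have h5 : ((miss m x ∪ miss m z) ∪ X).card ≤ Fintype.card C := Finset.card_le_univ _
  unfold Sm at hs
  omega

theorem eps1 {x y : V} (hm : Col H [s(y, x)] m) (hyx : H.Adj y x) {z : V} (hzx : z ≠ x)
    (hzy : z ≠ y) (hs : Sm C H x z) {r : C} (hr : m r x ≠ x) (hrz : m r z ≠ z) :
    ∃ ε, m ε x = x ∧ m ε z = z := by
  classical
  have h := eps_card hm hyx hzx hzy hs {r} (by
    intro r' hr'
    rw [Finset.mem_singleton] at hr'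
    subst hr'
    exact ⟨hr, hrz⟩)
  rw [Finset.card_singleton] at h
  obtain ⟨ε, hε⟩ := Finset.card_pos.1 (show 0 < (miss m x ∩ miss m z).card by omega)
  rw [Finset.mem_inter, mem_miss, mem_miss] at hε
  exact ⟨ε, hε⟩

theorem eps2 {x y : V} (hm : Col H [s(y, x)] m) (hyx : H.Adj y x) {z : V} (hzx : z ≠ x)
    (hzy : z ≠ y) (hs : Sm C H x z) {r r' : C} (hrr : r ≠ r') (hr : m r x ≠ x) (hrz : m r z ≠ z)
    (hr' : m r' x ≠ x) (hrz' : m r' z ≠ z) (e : C) :
    ∃ ε, ε ≠ e ∧ m ε x = x ∧ m ε z = z := by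
  classical
  have h := eps_card hm hyx hzx hzy hs {r, r'} (by
    intro q hq
    rw [Finset.mem_insert, Finset.mem_singleton] at hq
    rcases hq with rfl | rfl
    · exact ⟨hr, hrz⟩
    · exact ⟨hr', hrz'⟩)
  rw [Finset.card_pair hrr] at h
  obtain ⟨ε, hε, hne⟩ := Finset.exists_mem_ne (s := miss m x ∩ miss m z) (by omega) e
  rw [Finset.mem_inter, mem_miss, mem_miss] at hε
  exact ⟨ε, hne, hε⟩

open Classical in
/-- The colours missing at `x` lead from `y` to big vertices. -/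
theorem big_first (hc : Cr C H) {x y : V} (hm : Col H [s(y, x)] m) (hyx : H.Adj y x) {ε : C}
    (hε : m ε x = x) : m ε y ≠ y ∧ ¬ Sm C H x (m ε y) := by
  have h1 : m ε y ≠ y := fun h => no_common hc.nc hm hyx h hε
  refine ⟨h1, ?_⟩
  have hm' : Col H [s(x, y)] m := by
    rw [Sym2.eq_swap]
    exact hm
  have hbx : m ε y ≠ x := unc hm' hyx.ne' ε
  have hF : FP m y x [ε] (m ε y) := ⟨hε, rfl⟩
  have hF0 : FP m y x [] x := rfl
  obtain ⟨η, hη⟩ := ex_miss_y hc hm hyx
  have hd1 : Disjoint (miss m x) (miss m (m ε y)) := by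
    rw [Finset.disjoint_left]
    intro c h2 h3
    rw [mem_miss] at h2 h3
    exact hbx (fan_disjoint hc.nc hm' hyx.symm hη hF hF0 h3 h2)
  have hd2 : Disjoint (miss m x ∪ miss m (m ε y)) (miss m y) := by
    rw [Finset.disjoint_left]
    intro c h2 h3
    rw [Finset.mem_union, mem_miss, mem_miss] at h2
    rw [mem_miss] at h3
    rcases h2 with h2 | h2
    · exact no_common hc.nc hm hyx h3 h2
    · exact fan_miss hc.nc _ m x [ε] (m ε y) c rfl hm' hyx.symm hF h2 h3
  have h2 := Finset.card_union_of_disjoint hd1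
  have h3 := Finset.card_union_of_disjoint hd2
  have h4 : ((miss m x ∪ miss m (m ε y)) ∪ miss m y).card ≤ Fintype.card C :=
    Finset.card_le_univ _
  have h5 := card_miss_x hm hyx
  have h6 := card_miss_y hm hyx
  have h7 := card_miss hm hbx h1
  have h8 := hc.deg y
  unfold Sm
  omega

/-- The same at the next vertex of the fan. -/
theorem big_succ (hc : Cr C H) {x y : V} (hm : Col H [s(y, x)] m) (hyx : H.Adj y x) {c ε : C}
    (hcy : m c y = y) (hcx : m c x ≠ x) (hε : m ε x = x) :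
    m ε (m c x) ≠ m c x ∧ ¬ Sm C H x (m ε (m c x)) := by
  obtain ⟨m', hm', h⟩ := shift hm hyx hcy hcx
  have hne : ε ≠ c := by
    rintro rfl
    exact hcx hε
  have h1 := big_first hc hm' (hm.adj c x hcx).symm (ε := ε) (by rw [h ε hne, hε])
  rw [h ε hne] at h1
  exact h1

/-! ### Two bad colours -/

theorem claimB0 (hc : Cr C H) {x y : V} (hm : Col H [s(y, x)] m) (hyx : H.Adj y x) {c₁ c₂ : C}
    (h12 : c₁ ≠ c₂) (h1x : m c₁ x ≠ x) (h1 : m c₁ y = y ∨ Sm C H x (m c₁ y)) (h2x : m c₂ x ≠ x)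
    (h2 : m c₂ y = y) :
    m c₂ (m c₁ x) ≠ m c₁ x ∧ ¬ Sm C H x (m c₂ (m c₁ x)) := by
  have hnc := hc.nc
  obtain ⟨y₂, hy₂⟩ : ∃ y₂, m c₁ x = y₂ := ⟨_, rfl⟩
  rw [hy₂] at h1x ⊢
  have hxy₂ : H.Adj x y₂ := by
    have := hm.adj c₁ x (by rw [hy₂]; exact h1x)
    rwa [hy₂] at this
  have hy₂y : y₂ ≠ y := by rw [← hy₂]; exact unc hm hyx.ne c₁
  obtain ⟨ε₀, hε₀⟩ := ex_miss_x hc hm hyx
  by_contra hcon
  have hcon' : m c₂ y₂ = y₂ ∨ (m c₂ y₂ ≠ y₂ ∧ Sm C H x (m c₂ y₂)) := by
    by_cases h : m c₂ y₂ = y₂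
    · exact Or.inl h
    · refine Or.inr ⟨h, ?_⟩
      by_contra h'
      exact hcon ⟨h, h'⟩
  clear hcon
  -- the small vertex `b`
  have hb : ∀ b, m c₂ y₂ = b → b ≠ y₂ → Sm C H x b → b ≠ x ∧ b ≠ y ∧ ∃ (ε : C) (m' : C → V → V),
      m ε x = x ∧ ε ≠ c₂ ∧ Col H [s(y, x)] m' ∧ m' ε y₂ = b ∧ (∀ c, m' c x = m c x) ∧
      (∀ c, m' c y = m c y) := by
    intro b hb1 hb2 hb3
    have hbb : m c₂ b = y₂ := by rw [← hb1, hm.inv]
    have hbx : b ≠ x := by
      rintro rfl
      exact h12 (hm.uniq c₁ c₂ b (by rw [hy₂, hbb]) (by rw [hy₂]; exact h1x))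
    have hby : b ≠ y := by
      rintro rfl
      rw [h2] at hbb
      exact hb2 hbb
    obtain ⟨ε, hεx, hεb⟩ := eps1 hm hyx hbx hby hb3 h2x (by rw [hbb]; exact Ne.symm hb2)
    obtain ⟨m', hm', e1, e2, e3, e4, e5⟩ := swap_at hnc hm hyx hεx h2 hbx hby (Or.inl hεb)
    refine ⟨hbx, hby, ε, m', hεx, ?_, hm', ?_, e3, e4⟩
    · rintro rfl
      exact h2x hεx
    · rw [hbb] at e1
      rw [← e1, hm'.inv]
  rcases eq_or_ne (m c₁ y) y with hA | hA
  · -- `c₁` is missing at `y`
    rcases hcon' with h | ⟨h, hs⟩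
    · have hF : FP m x y [c₁] y₂ := ⟨hA, hy₂⟩
      have hF0 : FP m x y [] y := rfl
      exact hy₂y (fan_disjoint hnc hm hyx hε₀ hF hF0 h h2)
    · obtain ⟨hbx, hby, ε, m', hεx, _, hm', e1, e2, e3⟩ := hb _ rfl h hs
      have h3 := big_succ hc hm' hyx (c := c₁) (ε := ε) (by rw [e3, hA])
        (by rw [e2, hy₂]; exact h1x) (by rw [e2, hεx])
      rw [e2, hy₂, e1] at h3
      exact h3.2 hs
  · -- `c₁` leads from `y` to a small vertex `a`
    obtain ⟨a, ha⟩ : ∃ a, m c₁ y = a := ⟨_, rfl⟩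
    have has : Sm C H x a := by
      rcases h1 with h1 | h1
      · exact absurd h1 hA
      · rwa [ha] at h1
    rw [ha] at hA
    have hay : m c₁ a = y := by rw [← ha, hm.inv]
    have hax : a ≠ x := by
      rintro rfl
      rw [hy₂] at hay
      exact hy₂y hay
    have hay₂ : a ≠ y₂ := by
      rintro rfl
      exact hc.not_sm hxy₂ has
    rcases hcon' with h | ⟨h, hs⟩
    · -- `c₂` is missing at `y₂`
      obtain ⟨m₁, hm₁, e1, e2, e3, e4, e5⟩ := swap_at hnc hm hyx hε₀ h2 hxy₂.ne' hy₂y (Or.inr h)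
      rw [h] at e1
      have hεc₁ : ε₀ ≠ c₁ := by
        rintro rfl
        rw [hε₀] at hy₂
        exact h1x hy₂.symm
      have hεc₂ : ε₀ ≠ c₂ := by
        rintro rfl
        exact h2x hε₀
      obtain ⟨m₂, hm₂, f1, f2, f3, f4, f5, f6⟩ := recolor hm₁ (c := c₁) (d := ε₀) hεc₁.symm
        (u := x) (v := y₂) (by rw [e3, hy₂]) (by rw [e3, hε₀]) e1
      -- make `c₂` missing at `a`
      have key : ∃ m₃ : C → V → V, Col H [s(y, x)] m₃ ∧ m₃ c₂ a = a ∧
          (∀ c, m₃ c x = m₂ c x) ∧ (∀ c, m₃ c y = m₂ c y) := by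
        by_cases hca : m₂ c₂ a = a
        · exact ⟨m₂, hm₂, hca, fun _ => rfl, fun _ => rfl⟩
        · obtain ⟨ε, g1, g2⟩ := eps1 hm₂ hyx hax hA has (r := c₂)
            (by rw [f5 c₂ h12.symm hεc₂.symm, e3]; exact h2x) hca
          obtain ⟨m₃, hm₃, k1, k2, k3, k4, k5⟩ := swap_at hnc hm₂ hyx g1 (β := c₂)
            (by rw [f6 y (Ne.symm hyx.ne') hy₂y.symm, e4, h2]) hax hA (Or.inl g2)
          exact ⟨m₃, hm₃, by rw [k2, g2], k3, k4⟩
      obtain ⟨m₃, hm₃, g1, g2, g3⟩ := key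
      have h6 : m₃ c₁ y = a := by
        rw [g3, f6 y (Ne.symm hyx.ne') hy₂y.symm, e4, ha]
      have h7 : m₃ c₂ y = y := by
        rw [g3, f6 y (Ne.symm hyx.ne') hy₂y.symm, e4, h2]
      obtain ⟨m₄, hm₄, k1, k2, k3, k4, k5, k6⟩ := recolor hm₃ (c := c₁) (d := c₂) h12
        (u := y) (v := a) h6 h7 g1
      refine no_common hnc hm₄ hyx (c := c₁) k1 ?_
      rw [k6 x hyx.ne' hax.symm, g2, f1]
    · -- `c₂` leads from `y₂` to a small vertex `b`
      obtain ⟨b, hb1⟩ : ∃ b, m c₂ y₂ = b := ⟨_, rfl⟩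
      rw [hb1] at h hs
      obtain ⟨hbx, hby, ε, m₁, hεx, hεc₂, hm₁, e1, e2, e3⟩ := hb b hb1 h hs
      have key : ∃ m₂ : C → V → V, Col H [s(y, x)] m₂ ∧ m₂ c₂ a = a ∧ m₂ ε y₂ = b ∧
          (∀ c, m₂ c x = m₁ c x) ∧ (∀ c, m₂ c y = m₁ c y) := by
        by_cases hca : m₁ c₂ a = a
        · exact ⟨m₁, hm₁, hca, e1, fun _ => rfl, fun _ => rfl⟩
        · have h3 : m₁ c₁ a ≠ a := by
            have h4 : m₁ c₁ y = a := by rw [e3, ha]
            have h5 : m₁ c₁ a = y := by rw [← h4, hm₁.inv]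
            rw [h5]
            exact Ne.symm hA
          obtain ⟨ε', g0, g1, g2⟩ := eps2 hm₁ hyx hax hA has h12 (by rw [e2, hy₂]; exact h1x) h3
            (by rw [e2]; exact h2x) hca ε
          obtain ⟨m₂, hm₂, k1, k2, k3, k4, k5⟩ := swap_at hnc hm₁ hyx g1 (β := c₂)
            (by rw [e3, h2]) hax hA (Or.inl g2)
          exact ⟨m₂, hm₂, by rw [k2, g2], by rw [k5 ε g0.symm hεc₂, e1], k3, k4⟩
      obtain ⟨m₂, hm₂, g1, g2, g3, g4⟩ := key
      obtain ⟨m₃, hm₃, k1, k2, k3, k4, k5, k6⟩ := recolor hm₂ (c := c₁) (d := c₂) h12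
        (u := y) (v := a) (by rw [g4, e3, ha]) (by rw [g4, e3, h2]) g1
      have hx3 : ∀ c, m₃ c x = m c x := fun c => by rw [k6 x hyx.ne' hax.symm, g3, e2]
      have h3 := big_succ hc hm₃ hyx (c := c₁) (ε := ε) k1 (by rw [hx3, hy₂]; exact h1x)
        (by rw [hx3, hεx])
      rw [hx3, hy₂, k6 y₂ hy₂y hay₂.symm, g2] at h3
      exact h3.2 hs

/-- Free the colour `r` at `y`. -/
theorem free (hc : Cr C H) {x y : V} (hm : Col H [s(y, x)] m) (hyx : H.Adj y x) {r η : C}
    (hrx : m r x ≠ x) (hry : m r y ≠ y) (hs : Sm C H x (m r y)) (hη : m η y = y) :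
    ∃ m' : C → V → V, Col H [s(y, x)] m' ∧ (∀ c, m' c x = m c x) ∧ m' r y = y ∧
      m' η y = m r y ∧ (∀ c, c ≠ r → c ≠ η → m' c y = m c y) ∧
      (∀ w, w ≠ y → w ≠ m r y → m' r w = m r w) := by
  have hnc := hc.nc
  obtain ⟨a, ha⟩ : ∃ a, m r y = a := ⟨_, rfl⟩
  rw [ha] at hry hs ⊢
  have hay : m r a = y := by rw [← ha, hm.inv]
  have hax : a ≠ x := by
    rintro rfl
    exact unc hm hyx.ne r hay
  have hηx : m η x ≠ x := fun h => no_common hnc hm hyx hη h
  have hrη : r ≠ η := by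
    rintro rfl
    rw [ha] at hη
    exact hry hη
  have key : ∃ m₁ : C → V → V, Col H [s(y, x)] m₁ ∧ m₁ η a = a ∧ (∀ c, m₁ c x = m c x) ∧
      (∀ c, m₁ c y = m c y) ∧ ∀ w, m₁ r w = m r w := by
    by_cases h : m η a = a
    · exact ⟨m, hm, h, fun _ => rfl, fun _ => rfl, fun _ => rfl⟩
    · obtain ⟨ε, g1, g2⟩ := eps1 hm hyx hax hry hs hrx (by rw [hay]; exact Ne.symm hry)
      obtain ⟨m₁, hm₁, k1, k2, k3, k4, k5⟩ := swap_at hnc hm hyx g1 hη hax hry (Or.inl g2)
      refine ⟨m₁, hm₁, by rw [k2, g2], k3, k4, k5 r ?_ hrη⟩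
      rintro rfl
      exact hrx g1
  obtain ⟨m₁, hm₁, g1, g2, g3, g4⟩ := key
  obtain ⟨m₂, hm₂, k1, k2, k3, k4, k5, k6⟩ := recolor hm₁ (c := r) (d := η) hrη
    (u := y) (v := a) (by rw [g3, ha]) (by rw [g3, hη]) g1
  refine ⟨m₂, hm₂, ?_, k1, k3, ?_, ?_⟩
  · intro c
    rw [k6 x hyx.ne' hax.symm, g2]
  · intro c h1 h2
    rw [k5 c h1 h2, g3]
  · intro w h1 h2
    rw [k6 w h1 h2, g4]

theorem claimB (hc : Cr C H) {x y : V} (hm : Col H [s(y, x)] m) (hyx : H.Adj y x) {c₁ c₂ : C}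
    (h12 : c₁ ≠ c₂) (h1x : m c₁ x ≠ x) (h1 : m c₁ y = y ∨ Sm C H x (m c₁ y)) (h2x : m c₂ x ≠ x)
    (h2 : m c₂ y = y ∨ Sm C H x (m c₂ y)) :
    m c₂ (m c₁ x) ≠ m c₁ x ∧ ¬ Sm C H x (m c₂ (m c₁ x)) := by
  by_cases h2y : m c₂ y = y
  · exact claimB0 hc hm hyx h12 h1x h1 h2x h2y
  · have h2s : Sm C H x (m c₂ y) := by
      rcases h2 with h2 | h2
      · exact absurd h2 h2y
      · exact h2
    have hη : ∃ η, m η y = y ∧ (m c₁ y = y → η = c₁) := by
      by_cases h : m c₁ y = y
      · exact ⟨c₁, h, fun _ => rfl⟩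
      · obtain ⟨η, hη⟩ := ex_miss_y hc hm hyx
        exact ⟨η, hη, fun h' => absurd h' h⟩
    obtain ⟨η, hη, hηc⟩ := hη
    obtain ⟨m', hm', e1, e2, e3, e4, e5⟩ := free hc hm hyx h2x h2y h2s hη
    have h3 := claimB0 hc hm' hyx h12 (by rw [e1]; exact h1x) (by
      by_cases h : c₁ = η
      · right
        rw [h, e3]
        exact h2s
      · rw [e4 c₁ h12 h]
        exact h1) (by rw [e1]; exact h2x) e2
    have hxy₂ := hm.adj c₁ x h1x
    rw [e1, e5 (m c₁ x) (unc hm hyx.ne c₁) (by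
      intro h
      rw [← h] at h2s
      exact hc.not_sm hxy₂ h2s)] at h3
    exact h3

open Classical in
/-- The small neighbours of `v` (with respect to `x`). -/
noncomputable def sn (C : Type) [Fintype C] (H : SimpleGraph V) (x v : V) : Finset V :=
  univ.filter fun z => H.Adj v z ∧ Sm C H x z

theorem mem_sn {x v z : V} : z ∈ sn C H x v ↔ H.Adj v z ∧ Sm C H x z := by simp [sn]

/-- Woodall's lemma: a neighbour `y` of `x` with many small neighbours forces many neighbours with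
few small neighbours. -/
theorem wood (hc : Cr C H) {x y : V} (hyx : H.Adj y x) :
    ∃ Y : Finset V, (∀ v ∈ Y, H.Adj x v) ∧ (sn C H x y).card ≤ Y.card ∧
      ∀ v ∈ Y, (sn C H x v).card + Y.card ≤ dg H x := by
  classical
  obtain ⟨m, hm⟩ := hc.min y x hyx
  let J : Finset C := univ.filter fun r => m r x ≠ x ∧ (m r y = y ∨ Sm C H x (m r y))
  have hJ : ∀ r, r ∈ J ↔ m r x ≠ x ∧ (m r y = y ∨ Sm C H x (m r y)) := by
    intro r
    simp [J]
  have hinj : Set.InjOn (fun r => m r x) (J : Set C) := by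
    intro r hr s hs h
    rw [Finset.mem_coe, hJ] at hr
    exact hm.uniq r s x h hr.1
  have hcardY : (J.image fun r => m r x).card = J.card := Finset.card_image_of_injOn hinj
  refine ⟨J.image fun r => m r x, ?_, ?_, ?_⟩
  · intro v hv
    rw [Finset.mem_image] at hv
    obtain ⟨r, hr, rfl⟩ := hv
    exact hm.adj r x ((hJ r).1 hr).1
  · rw [hcardY]
    have h1 : ((sn C H x y).erase x).card ≤ (J.filter fun r => ¬ m r y = y).card := by
      refine le_trans (Finset.card_le_card (t := (J.filter fun r => ¬ m r y = y).image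
        fun r => m r y) ?_) Finset.card_image_le
      intro z hz
      rw [Finset.mem_erase, mem_sn] at hz
      obtain ⟨hzx, hyz, hs⟩ := hz
      obtain ⟨r, hr⟩ := hm.cov y z hyz (by
        rw [List.mem_singleton, Sym2.congr_right]
        exact hzx)
      rw [Finset.mem_image]
      refine ⟨r, ?_, hr⟩
      rw [Finset.mem_filter, hJ]
      refine ⟨⟨?_, Or.inr (by rw [hr]; exact hs)⟩, by rw [hr]; exact hyz.ne'⟩
      intro h
      have := (big_first hc hm hyx h).2
      rw [hr] at this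
      exact this hs
    have h2 : 0 < (J.filter fun r => m r y = y).card := by
      obtain ⟨η, hη⟩ := ex_miss_y hc hm hyx
      refine Finset.card_pos.2 ⟨η, ?_⟩
      rw [Finset.mem_filter, hJ]
      exact ⟨⟨fun h => no_common hc.nc hm hyx hη h, Or.inl hη⟩, hη⟩
    have h3 : (J.filter fun r => m r y = y).card + (J.filter fun r => ¬ m r y = y).card =
        J.card := Finset.card_filter_add_card_filter_not _
    have h4 := Finset.pred_card_le_card_erase (s := sn C H x y) (a := x)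
    omega
  · intro v hv
    rw [Finset.mem_image] at hv
    obtain ⟨r, hr, rfl⟩ := hv
    have hr' := (hJ r).1 hr
    rw [hcardY]
    -- a colouring in which `r` is missing at `y`
    have key : ∃ m' : C → V → V, Col H [s(y, x)] m' ∧ (∀ c, m' c x = m c x) ∧ m' r y = y ∧
        ∀ k ∈ J, m' k y = y ∨ Sm C H x (m' k y) := by
      by_cases h : m r y = y
      · exact ⟨m, hm, fun _ => rfl, h, fun k hk => ((hJ k).1 hk).2⟩
      · have hs : Sm C H x (m r y) := by
          rcases hr'.2 with h' | h'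
          · exact absurd h' h
          · exact h'
        obtain ⟨η, hη⟩ := ex_miss_y hc hm hyx
        obtain ⟨m', hm', e1, e2, e3, e4, e5⟩ := free hc hm hyx hr'.1 h hs hη
        refine ⟨m', hm', e1, e2, ?_⟩
        intro k hk
        by_cases hkr : k = r
        · rw [hkr]
          exact Or.inl e2
        · by_cases hkη : k = η
          · rw [hkη, e3]
            exact Or.inr hs
          · rw [e4 k hkr hkη]
            exact ((hJ k).1 hk).2
    obtain ⟨m', hm', e1, e2, e3⟩ := key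
    have hv : ∀ c ∈ miss m x ∪ J.erase r, m' c (m r x) ≠ m r x ∧ ¬ Sm C H x (m' c (m r x)) := by
      intro c hc'
      rw [Finset.mem_union, mem_miss, Finset.mem_erase] at hc'
      have hrx : m' r x ≠ x := by rw [e1]; exact hr'.1
      rcases hc' with hc' | ⟨hcr, hcJ⟩
      · have := big_succ hc hm' hyx e2 hrx (ε := c) (by rw [e1, hc'])
        rwa [e1] at this
      · have hcJ' := (hJ c).1 hcJ
        have := claimB hc hm' hyx (c₁ := r) (c₂ := c) (Ne.symm hcr) hrx (Or.inl e2)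
          (by rw [e1]; exact hcJ'.1) (e3 c hcJ)
        rwa [e1] at this
    have hbig : (miss m x ∪ J.erase r).card ≤
        (univ.filter fun z => H.Adj (m r x) z ∧ ¬ Sm C H x z).card := by
      apply Finset.card_le_card_of_injOn (fun c => m' c (m r x))
      · intro c hc'
        rw [Finset.mem_coe] at hc'
        have h1 := hv c hc'
        rw [Finset.mem_coe, Finset.mem_filter]
        exact ⟨Finset.mem_univ _, hm'.adj _ _ h1.1, h1.2⟩
      · intro c hc' d _ h
        rw [Finset.mem_coe] at hc'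
        exact hm'.uniq c d _ h (hv c hc').1
    have hdisj : Disjoint (miss m x) (J.erase r) := by
      rw [Finset.disjoint_left]
      intro c h1 h2
      rw [mem_miss] at h1
      rw [Finset.mem_erase, hJ] at h2
      exact h2.2.1 h1
    have h1 := Finset.card_union_of_disjoint hdisj
    have h2 := Finset.card_erase_of_mem hr
    have h2' : 0 < J.card := Finset.card_pos.2 ⟨r, hr⟩
    have h3 := card_miss_x hm hyx
    have h4 : (sn C H x (m r x)).card +
        (univ.filter fun z => H.Adj (m r x) z ∧ ¬ Sm C H x z).card = dg H (m r x) := by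
      rw [dg, ← Finset.card_filter_add_card_filter_not (s := nb H (m r x))
        (fun z => Sm C H x z)]
      congr 1
      · congr 1
        ext z
        rw [mem_sn, Finset.mem_filter, mem_nb]
      · congr 1
        ext z
        rw [Finset.mem_filter, Finset.mem_filter, mem_nb]
        simp
    have h5 := hc.deg (m r x)
    omega

end Pool.Agent.TwoSided
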